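import Pool.Agent.helper17.EXC.Spec

/-!
# Project EXC (MP_561ff4_al): row IOT, the embedding of the matrices of trace zero
-/

set_option autoImplicit false

open Finset

namespace Pool.Agent.EXC

section
variable {n : ℕ} (C : Matrix (Fin n) (Fin n) ℤ) {F : Type} [Field F]

omit [Field F] in
theorem IOT_single_ne [Zero F] (c d a b : Fin 6) (x : F) (h : ¬ (c = a ∧ d = b)) :
    Matrix.single c d x a b = 0 := by
  rw [Matrix.single_apply, if_neg h]

theorem IOT_mm (a b c d : Fin 6) (x y : F) (h : b ≠ c) :
    Matrix.single a b x * Matrix.single c d y = 0 := Matrix.single_mul_single_of_ne x a b c h y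

theorem IOT_io_off (δ : Fin 5 → Fin n) (c d : Fin 6) (h : c ≠ d) (x : F) :
    io C δ (Matrix.single c d x) = ((et c d : F) * x) • E C (ro δ c d) := by
  unfold io
  have h1 : ∀ k : Fin 5, (∑ a : Fin 6, if (a : ℕ) ≤ k then (Matrix.single c d x) a a else 0) = 0 := by
    intro k
    refine Finset.sum_eq_zero fun a _ => ?_
    rw [IOT_single_ne c d a a x (fun e => h (e.1.trans e.2.symm))]
    simp
  simp only [h1, zero_smul, Finset.sum_const_zero, zero_add]
  rw [Finset.sum_eq_single c]
  · rw [Finset.sum_eq_single d]
    · rw [if_neg h, Matrix.single_apply_same]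
    · intro b _ hb
      rw [IOT_single_ne c d c b x (fun e => hb e.2.symm)]
      simp
    · simp
  · intro a _ ha
    refine Finset.sum_eq_zero fun b _ => ?_
    rw [IOT_single_ne c d a b x (fun e => ha e.1.symm)]
    simp
  · simp

theorem IOT_io_diag (δ : Fin 5 → Fin n) (c : Fin 6) (x : F) :
    io C δ (Matrix.single c c x) = ∑ k : Fin 5, (if (c : ℕ) ≤ k then x else 0) • ht C (sr (δ k)) := by
  unfold io
  have h1 : ∀ k : Fin 5, (∑ a : Fin 6, if (a : ℕ) ≤ k then (Matrix.single c c x) a a else 0) =
      if (c : ℕ) ≤ k then x else 0 := by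
    intro k
    rw [Finset.sum_eq_single c]
    · rw [Matrix.single_apply_same]
    · intro a _ ha
      rw [IOT_single_ne c c a a x (fun e => ha e.1.symm)]
      simp
    · simp
  simp only [h1]
  have h2 : (∑ a : Fin 6, ∑ b : Fin 6, if a = b then 0 else
      ((et a b : F) * (Matrix.single c c x) a b) • E C (ro δ a b) : Lm C F) = 0 := by
    refine Finset.sum_eq_zero fun a _ => Finset.sum_eq_zero fun b _ => ?_
    by_cases hab : a = b
    · rw [if_pos hab]
    · rw [if_neg hab, IOT_single_ne c c a b x (fun e => hab (e.1.symm.trans e.2))]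
      simp
  rw [h2, add_zero]

theorem IOT_sr (δ : Fin 5 → Fin n) (k : Fin 5) : sr (δ k) = ro δ k.castSucc k.succ := by
  unfold ro pr
  fin_cases k <;> simp [Fin.sum_univ_succ]

theorem IOT_sum : ∀ a b c : Fin 6, (∑ k : Fin 5, (if (c : ℕ) ≤ k then (1 : ℤ) else 0) *
    ((if a = k.castSucc then 1 else 0) + (if b = k.succ then 1 else 0) - (if a = k.succ then 1 else 0) -
      (if b = k.castSucc then 1 else 0))) =
    (if a = c then 1 else 0) - (if a = 5 then 1 else 0) + (if b = 5 then 1 else 0) - (if b = c then 1 else 0) := by
  decide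

theorem IOT_io_neg (δ : Fin 5 → Fin n) (M : Matrix (Fin 6) (Fin 6) F) : io C δ (-M) = -io C δ M := by
  have := io_smul C δ (-1 : F) M
  simpa using this

theorem IOT_br_sum [IsC C] {ι : Type} (s : Finset ι) (v : Lm C F) (f : ι → Lm C F) :
    br C v (∑ i ∈ s, f i) = ∑ i ∈ s, br C v (f i) := by
  classical
  induction s using Finset.induction_on with
  | empty => simp
  | insert a s ha ih => rw [Finset.sum_insert ha, Finset.sum_insert ha, br_add_right, ih]

theorem IOT_fm_sum [IsC C] {ι : Type} (s : Finset ι) (v : Lm C F) (f : ι → Lm C F) :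
    fm C v (∑ i ∈ s, f i) = ∑ i ∈ s, fm C v (f i) := by
  classical
  induction s using Finset.induction_on with
  | empty => simp
  | insert a s ha ih => rw [Finset.sum_insert ha, Finset.sum_insert ha, fm_add_right, ih]

theorem IOT_et_swap : ∀ a b : Fin 6, a ≠ b → et b a = -et a b := by decide

theorem IOT_et_sq : ∀ a b : Fin 6, et a b * et a b = 1 := by decide

end

theorem IOT (hRHO : RHO_stmt) : IOT_stmt := by
  intro n C _ F _ j0 θ δ hE a b hab M hM
  obtain ⟨hip, hsg, hadd, hneg, hinj⟩ := hRHO n C j0 θ δ hE
  have hroot : ∀ c d : Fin 6, c ≠ d → ip C (ro δ c d) (ro δ c d) = 2 := by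
    intro c d h
    rw [hip, if_pos rfl, if_pos rfl, if_neg h, if_neg h.symm]
    norm_num
  have hα := hroot a b hab
  have hsq : ∀ c d : Fin 6, (et c d : F) * (et c d : F) = 1 := by
    intro c d
    exact_mod_cast congrArg (Int.cast : ℤ → F) (IOT_et_sq c d)
  have h0 : io C δ (0 : Matrix (Fin 6) (Fin 6) F) = 0 := by
    have := io_smul C δ (0 : F) 0
    simpa using this
  -- the bracket with `ht`
  have hht : ∀ β : Fin n → ℤ, br C (E C (ro δ a b)) (ht C β : Lm C F) =
      -((ip C (ro δ a b) β : ℤ) : F) • E C (ro δ a b) := by
    intro β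
    unfold ht
    rw [br_E_H C hα, ev_coroot]
  -- `ro` is zero on the diagonal
  have hz : ∀ c : Fin 6, ro δ c c = 0 := fun c => by simp [ro]
  have hE0 : (E C (0 : Fin n → ℤ) : Lm C F) = 0 := E_eq_zero C (by simp)
  have hpr : ∀ c d : Fin 6, ht C (ro δ c d) = (∑ k : Fin 5, ((if (c : ℕ) ≤ k then (1 : F) else 0) -
      (if (d : ℕ) ≤ k then 1 else 0)) • ht C (sr (δ k)) : Lm C F) := by
    intro c d
    refine Prod.ext ?_ ?_
    · funext i
      rw [Prod.fst_sum]
      simp only [ht_fst, ro, pr, Prod.smul_fst, Finset.sum_apply, Pi.smul_apply, Pi.sub_apply, smul_eq_mul,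
        Int.cast_sub, Int.cast_sum, ← Finset.sum_sub_distrib]
      refine Finset.sum_congr rfl fun k _ => ?_
      by_cases h1 : (c : ℕ) ≤ k <;> by_cases h2 : (d : ℕ) ≤ k <;>
        simp [h1, h2, not_lt.2, not_le.1]
    · rw [Prod.snd_sum]
      simp
  -- the bracket with `single c d x`
  have key : ∀ M : Matrix (Fin 6) (Fin 6) F,
      br C (E C (ro δ a b)) (io C δ M) =
        (et a b : F) • io C δ (Matrix.single a b 1 * M - M * Matrix.single a b 1) +
          (M.trace * ((if a = 5 then 1 else 0) - (if b = 5 then 1 else 0))) • E C (ro δ a b) := by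
    intro M
    induction M using Matrix.induction_on' with
    | h_zero => simp [h0]
    | h_add p q hp hq =>
      rw [io_add, br_add_right, hp, hq, Matrix.trace_add]
      have : Matrix.single a b 1 * (p + q) - (p + q) * Matrix.single a b (1 : F) =
          (Matrix.single a b 1 * p - p * Matrix.single a b 1) + (Matrix.single a b 1 * q - q * Matrix.single a b 1) := by
        rw [Matrix.mul_add, Matrix.add_mul]; abel
      rw [this, io_add, smul_add, add_mul, add_smul]
      abel
    | h_std_basis c d x =>
      by_cases hcd : c = d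
      · subst hcd
        have e1 : br C (E C (ro δ a b)) (io C δ (Matrix.single c c x)) =
            (-(x * (((if a = c then 1 else 0) - (if a = 5 then 1 else 0) + (if b = 5 then 1 else 0) -
              (if b = c then 1 else 0) : ℤ) : F))) • (E C (ro δ a b) : Lm C F) := by
          rw [IOT_io_diag, IOT_br_sum, ← IOT_sum a b c, Int.cast_sum, Finset.mul_sum, ← Finset.sum_neg_distrib,
            Finset.sum_smul]
          refine Finset.sum_congr rfl fun k _ => ?_
          rw [br_smul_right, hht, IOT_sr, hip, smul_smul]
          congr 1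
          by_cases hk : (c : ℕ) ≤ k
          · rw [if_pos hk, if_pos hk]; push_cast; ring
          · rw [if_neg hk, if_neg hk]; push_cast; ring
        rw [e1, Matrix.trace_single_eq_same]
        by_cases hbc : b = c
        · subst hbc
          rw [Matrix.single_mul_single_same, IOT_mm _ _ _ _ _ _ (Ne.symm hab), sub_zero,
            one_mul, IOT_io_off C δ a b hab, smul_smul, ← add_smul, ← mul_assoc, hsq, if_neg hab]
          congr 1
          by_cases ha5 : a = 5 <;> by_cases hb5 : b = 5 <;> simp [ha5, hb5]
          all_goals ring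
        · by_cases hac : a = c
          · subst hac
            rw [IOT_mm _ _ _ _ _ _ hbc, Matrix.single_mul_single_same, zero_sub,
              IOT_io_neg, mul_one, IOT_io_off C δ a b hab, smul_neg, smul_smul, ← neg_smul, ← add_smul, ← mul_assoc,
              hsq, if_neg hbc]
            congr 1
            by_cases ha5 : a = 5 <;> by_cases hb5 : b = 5 <;> simp [ha5, hb5]
            all_goals ring
          · rw [IOT_mm _ _ _ _ _ _ hbc, IOT_mm _ _ _ _ _ _ (Ne.symm hac),
              sub_zero, h0, smul_zero, zero_add, if_neg hbc, if_neg hac]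
            congr 1
            by_cases ha5 : a = 5 <;> by_cases hb5 : b = 5 <;> simp [ha5, hb5]
      · rw [IOT_io_off C δ c d hcd, br_smul_right, br_E_E C hα (hroot c d hcd),
          Matrix.trace_single_eq_of_ne _ _ _ hcd, zero_mul, zero_smul, add_zero, ← hneg a b]
        by_cases hbc : b = c
        · subst hbc
          by_cases had : a = d
          · subst had
            rw [if_pos rfl, hadd, hz, hE0, smul_zero, zero_sub, Matrix.single_mul_single_same,
              Matrix.single_mul_single_same, sub_eq_add_neg, io_add, IOT_io_neg, IOT_io_diag, IOT_io_diag, hpr,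
              IOT_et_swap a b hab, one_mul, mul_one, ← sub_eq_add_neg, ← Finset.sum_sub_distrib, smul_neg,
              Finset.smul_sum, Finset.smul_sum, ← Finset.sum_neg_distrib]
            refine Finset.sum_congr rfl fun k _ => ?_
            rw [← sub_smul, smul_smul, smul_smul, ← neg_smul]
            congr 1
            by_cases h1 : (a : ℕ) ≤ k <;> by_cases h2 : (b : ℕ) ≤ k <;> simp [h1, h2]
          · have hne : ¬ ro δ b d = ro δ b a := fun e => had ((hinj b d b a hcd (Ne.symm hab) e).2).symm
            rw [if_neg hne, sub_zero, hadd, Matrix.single_mul_single_same,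
              IOT_mm _ _ _ _ _ _ (Ne.symm had), sub_zero, one_mul, IOT_io_off C δ a d had,
              smul_smul, smul_smul]
            congr 1
            have h3 := hsg a b d hab hcd had
            have h4 : (sg C (ro δ a b) (ro δ b d) : F) * (et a b : F) * (et b d : F) = (et a d : F) := by
              exact_mod_cast congrArg (Int.cast : ℤ → F) h3
            rw [← h4]
            linear_combination (-(et b d : F) * x * (sg C (ro δ a b) (ro δ b d) : F)) * hsq a b
        · by_cases had : a = d
          · subst had
            have hne : ¬ ro δ c a = ro δ b a := fun e => hbc ((hinj c a b a hcd (Ne.symm hab) e).1).symm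
            rw [if_neg hne, sub_zero, add_comm (ro δ a b), hadd, IOT_mm _ _ _ _ _ _ hbc,
              Matrix.single_mul_single_same, zero_sub, IOT_io_neg, mul_one, IOT_io_off C δ c b (Ne.symm hbc),
              smul_neg, smul_smul, smul_smul, ← neg_smul]
            congr 1
            have h3 := hsg c a b hcd hab (Ne.symm hbc)
            have h4 : (sg C (ro δ c a) (ro δ a b) : F) * (et c a : F) * (et a b : F) = (et c b : F) := by
              exact_mod_cast congrArg (Int.cast : ℤ → F) h3
            have h5 : sg C (ro δ a b) (ro δ c a) = -sg C (ro δ c a) (ro δ a b) := by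
              refine sg_comm_odd C _ _ ?_
              rw [hip, if_neg hcd, if_neg hab, if_neg (Ne.symm hbc), if_pos rfl]
              decide
            rw [← h4, h5]
            push_cast
            linear_combination ((et c a : F) * x * (sg C (ro δ c a) (ro δ a b) : F)) * hsq a b
          · have hne : ¬ ro δ c d = ro δ b a := fun e => hbc ((hinj c d b a hcd (Ne.symm hab) e).1).symm
            have hnr : (E C (ro δ a b + ro δ c d) : Lm C F) = 0 := by
              refine E_eq_zero C ?_
              intro e
              rw [add_root_iff hα (hroot c d hcd), hip, if_neg had, if_neg hbc] at e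
              by_cases h1 : a = c <;> by_cases h2 : b = d <;> simp [h1, h2] at e
            rw [if_neg hne, sub_zero, hnr, smul_zero, smul_zero, IOT_mm _ _ _ _ _ _ hbc,
              IOT_mm _ _ _ _ _ _ (Ne.symm had), sub_zero, h0, smul_zero]
  constructor
  · rw [key M, hM]
    simp
  · clear key hM
    induction M using Matrix.induction_on' with
    | h_zero => simp [h0]
    | h_add p q hp hq =>
      rw [io_add, fm_add_right, hp, hq, Matrix.add_apply]
      ring
    | h_std_basis c d x =>
      by_cases hcd : c = d
      · subst hcd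
        rw [IOT_io_diag, IOT_fm_sum, IOT_single_ne c c b a x (fun e => hab (e.2.symm.trans e.1)), mul_zero, neg_zero]
        refine Finset.sum_eq_zero fun k _ => ?_
        rw [fm_smul_right]
        unfold ht
        rw [fm_E_H C hα, mul_zero]
      · rw [IOT_io_off C δ c d hcd, fm_smul_right, fm_E_E C hα (hroot c d hcd), ← hneg a b]
        by_cases h : c = b ∧ d = a
        · obtain ⟨rfl, rfl⟩ := h
          rw [if_pos rfl, Matrix.single_apply_same, IOT_et_swap d c hab]
          push_cast
          ring
        · rw [if_neg (fun e => h (hinj c d b a hcd (Ne.symm hab) e)), IOT_single_ne c d b a x h]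
          ring

end Pool.Agent.EXC
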